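import Pool.Agent.Lib_helper28.TE28.Res

/-!
# Elements that are almost Teichmueller representatives
-/

set_option autoImplicit false

namespace Pool.Agent.IT

open Pool.Agent.RF

section RA

variable {C : Type*} [NormedField C] [IsUltrametricDist C] {p : ℕ} {r : ℝ}

theorem ra_add (hp : p.Prime) (hpr : ‖(p : C)‖ ≤ r) (x y : C) (hx : ‖x‖ ≤ 1) (hy : ‖y‖ ≤ 1) (m : ℕ) :
    ‖(x + y) ^ p ^ m - (x ^ p ^ m + y ^ p ^ m)‖ ≤ r := by
  obtain ⟨z', hz'⟩ := exists_add_pow_prime_pow_eq hp (⟨x, hx⟩ : nv C) (⟨y, hy⟩ : nv C) m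
  obtain ⟨z, hz⟩ : ∃ z : nv C, ((⟨x, hx⟩ : nv C) + (⟨y, hy⟩ : nv C)) ^ p ^ m =
      (⟨x, hx⟩ : nv C) ^ p ^ m + (⟨y, hy⟩ : nv C) ^ p ^ m + (p : nv C) * z :=
    ⟨⟨x, hx⟩ * ⟨y, hy⟩ * z', by rw [hz']; ring⟩
  have h1 : (x + y) ^ p ^ m = x ^ p ^ m + y ^ p ^ m + (p : C) * (z : C) := by
    have h2 := congrArg (fun u : nv C => (u : C)) hz
    exact h2
  rw [h1, add_sub_cancel_left, norm_mul]
  calc ‖(p : C)‖ * ‖(z : C)‖ ≤ ‖(p : C)‖ * 1 :=
        mul_le_mul_of_nonneg_left z.2 (norm_nonneg _)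
    _ ≤ r := by rw [mul_one]; exact hpr

omit [IsUltrametricDist C] in
theorem ra_pow {x : C} {f : ℕ} (h : ∀ t, ‖x ^ p ^ (f * t) - x‖ ≤ r) (g t : ℕ) :
    ‖x ^ p ^ (f * g * t) - x‖ ≤ r := by
  rw [mul_assoc]
  exact h (g * t)

/-- The elements of norm at most one that are within `r` of their `p ^ (f * t)`-th powers, for some
`f` and all `t`. -/
def good (p : ℕ) (C : Type*) [NormedField C] [IsUltrametricDist C] (hp : p.Prime) {r : ℝ}
    (hpr : ‖(p : C)‖ ≤ r) : Subring C where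
  carrier := {x | ‖x‖ ≤ 1 ∧ ∃ f, 0 < f ∧ ∀ t, ‖x ^ p ^ (f * t) - x‖ ≤ r}
  one_mem' := by
    refine ⟨norm_one.le, 1, one_pos, fun t => ?_⟩
    rw [one_pow, sub_self, norm_zero]
    exact (norm_nonneg _).trans hpr
  zero_mem' := by
    refine ⟨by rw [norm_zero]; exact zero_le_one, 1, one_pos, fun t => ?_⟩
    rw [zero_pow (pow_pos hp.pos _).ne', sub_self, norm_zero]
    exact (norm_nonneg _).trans hpr
  mul_mem' := by
    rintro x y ⟨hx, f, hf, hfx⟩ ⟨hy, g, hg, hgy⟩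
    refine ⟨by rw [norm_mul]; exact mul_le_one₀ hx (norm_nonneg _) hy, f * g, Nat.mul_pos hf hg,
      fun t => ?_⟩
    have h1 := ra_pow hfx g t
    have h2 := ra_pow hgy f t
    rw [mul_comm g f] at h2
    have h3 : (x * y) ^ p ^ (f * g * t) - x * y =
        x ^ p ^ (f * g * t) * (y ^ p ^ (f * g * t) - y) +
        (x ^ p ^ (f * g * t) - x) * y := by ring
    rw [h3]
    refine (IsUltrametricDist.norm_add_le_max _ _).trans (max_le ?_ ?_)
    · rw [norm_mul, norm_pow]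
      calc ‖x‖ ^ p ^ (f * g * t) * ‖y ^ p ^ (f * g * t) - y‖ ≤ 1 * r :=
            mul_le_mul (pow_le_one₀ (norm_nonneg _) hx) h2 (norm_nonneg _) zero_le_one
        _ = r := one_mul r
    · rw [norm_mul]
      calc ‖x ^ p ^ (f * g * t) - x‖ * ‖y‖ ≤ ‖x ^ p ^ (f * g * t) - x‖ * 1 :=
            mul_le_mul_of_nonneg_left hy (norm_nonneg _)
        _ ≤ r := by rw [mul_one]; exact h1
  add_mem' := by
    rintro x y ⟨hx, f, hf, hfx⟩ ⟨hy, g, hg, hgy⟩
    refine ⟨(IsUltrametricDist.norm_add_le_max x y).trans (max_le hx hy), f * g, Nat.mul_pos hf hg,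
      fun t => ?_⟩
    have h1 := ra_pow hfx g t
    have h2 := ra_pow hgy f t
    rw [mul_comm g f] at h2
    have h3 : (x + y) ^ p ^ (f * g * t) - (x + y) =
        ((x + y) ^ p ^ (f * g * t) - (x ^ p ^ (f * g * t) + y ^ p ^ (f * g * t))) +
        ((x ^ p ^ (f * g * t) - x) + (y ^ p ^ (f * g * t) - y)) := by ring
    rw [h3]
    refine (IsUltrametricDist.norm_add_le_max _ _).trans (max_le (ra_add hp hpr x y hx hy _) ?_)
    exact (IsUltrametricDist.norm_add_le_max _ _).trans (max_le h1 h2)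
  neg_mem' := by
    rintro x ⟨hx, f, hf, hfx⟩
    have hx' : ‖-x‖ ≤ 1 := by rw [norm_neg]; exact hx
    refine ⟨hx', f, hf, fun t => ?_⟩
    have h1 := ra_add hp hpr x (-x) hx hx' (f * t)
    rw [add_neg_cancel, zero_pow (pow_pos hp.pos _).ne', zero_sub, norm_neg] at h1
    have h3 : (-x) ^ p ^ (f * t) - (-x) =
        (x ^ p ^ (f * t) + (-x) ^ p ^ (f * t)) - (x ^ p ^ (f * t) - x) := by ring
    rw [h3]
    exact nsub_le _ _ h1 (hfx t)

theorem mem_good (hp : p.Prime) (hpr : ‖(p : C)‖ ≤ r) (x : C) :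
    x ∈ good p C hp hpr ↔ ‖x‖ ≤ 1 ∧ ∃ f, 0 < f ∧ ∀ t, ‖x ^ p ^ (f * t) - x‖ ≤ r := Iff.rfl

theorem good_le (hp : p.Prime) (hpr : ‖(p : C)‖ ≤ r) {x : C} (hx : x ∈ good p C hp hpr) :
    ‖x‖ ≤ 1 := hx.1

/-- The dichotomy for the norms. -/
theorem good_dich (hp : p.Prime) (hpr : ‖(p : C)‖ ≤ r) {x : C} (hx : x ∈ good p C hp hpr) :
    ‖x‖ = 1 ∨ ‖x‖ ≤ r := by
  obtain ⟨h1, f, hf, h⟩ := hx
  rcases h1.lt_or_eq with h2 | h2
  · right
    rcases eq_or_ne x 0 with h0 | h0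
    · rw [h0, norm_zero]
      exact (norm_nonneg _).trans hpr
    · have hpos : 0 < ‖x‖ := norm_pos_iff.mpr h0
      have h3 := h 1
      rw [mul_one] at h3
      have h4 : 1 < p ^ f := Nat.one_lt_pow hf.ne' hp.one_lt
      have h5 : ‖x ^ p ^ f‖ < ‖x‖ := by
        rw [norm_pow]
        calc ‖x‖ ^ p ^ f < ‖x‖ ^ 1 := pow_lt_pow_right_of_lt_one₀ hpos h2 h4
          _ = ‖x‖ := pow_one _
      have h6 : ‖x ^ p ^ f - x‖ = ‖x‖ := by
        rw [sub_eq_add_neg, IsUltrametricDist.norm_add_eq_max_of_norm_ne_norm (by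
          rw [norm_neg]; exact h5.ne), norm_neg]
        exact max_eq_right h5.le
      rw [← h6]
      exact h3
  · exact Or.inl h2

/-- Roots of unity of order prime to `p`. -/
theorem good_root (hp : p.Prime) (hpr : ‖(p : C)‖ ≤ r) {x : C} {M : ℕ} (hM : ¬ p ∣ M)
    (hx : x ^ M = 1) : x ∈ good p C hp hpr := by
  have hM0 : 0 < M := Nat.pos_of_ne_zero fun h => hM (by rw [h]; exact dvd_zero p)
  have hn : ‖x‖ = 1 := by
    have h1 : ‖x‖ ^ M = 1 := by rw [← norm_pow, hx, norm_one]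
    exact (pow_eq_one_iff_of_nonneg (norm_nonneg _) hM0.ne').mp h1
  refine ⟨hn.le, M.totient, Nat.totient_pos.mpr hM0, fun t => ?_⟩
  have hcop : Nat.Coprime p M := (Nat.Prime.coprime_iff_not_dvd hp).mpr hM
  have h1 : p ^ (M.totient * t) ≡ 1 [MOD M] := by
    rw [pow_mul]
    have h2 := (Nat.ModEq.pow_totient hcop).pow t
    rwa [one_pow] at h2
  have h3 : x ^ p ^ (M.totient * t) = x := by
    have h4 : M ∣ p ^ (M.totient * t) - 1 :=
      (Nat.modEq_iff_dvd' (Nat.one_le_pow _ _ hp.pos)).mp h1.symm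
    obtain ⟨u, hu⟩ := h4
    have h5 : p ^ (M.totient * t) = M * u + 1 := by
      have := Nat.one_le_pow (M.totient * t) p hp.pos
      omega
    rw [h5, pow_succ, pow_mul, hx, one_pow, one_mul]
  rw [h3, sub_self, norm_zero]
  exact (norm_nonneg _).trans hpr

/-- Rings with finite residue ring. -/
theorem good_int (hp : p.Prime) (hpr : ‖(p : C)‖ ≤ r) (hr1 : r < 1) {K : Type} [Field K]
    [NumberField K] (θ : NumberField.RingOfIntegers K →+* C)
    (hr : ∀ a, ‖θ a‖ = 1 ∨ ‖θ a‖ ≤ r) (a : NumberField.RingOfIntegers K) :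
    θ a ∈ good p C hp hpr := by
  classical
  have hle : ∀ a, ‖θ a‖ ≤ 1 := fun a => by
    rcases hr a with h | h
    · exact h.le
    · exact h.trans hr1.le
  let P : Ideal (NumberField.RingOfIntegers K) :=
    { carrier := {a | ‖θ a‖ < 1}
      zero_mem' := by
        change ‖θ 0‖ < 1
        rw [map_zero, norm_zero]
        exact one_pos
      add_mem' := by
        intro x y hx hy
        change ‖θ (x + y)‖ < 1
        rw [map_add]
        exact (IsUltrametricDist.norm_add_le_max _ _).trans_lt (max_lt hx hy)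
      smul_mem' := by
        intro c x hx
        change ‖θ (c * x)‖ < 1
        rw [map_mul, norm_mul]
        calc ‖θ c‖ * ‖θ x‖ ≤ 1 * ‖θ x‖ := mul_le_mul_of_nonneg_right (hle c) (norm_nonneg _)
          _ = ‖θ x‖ := one_mul _
          _ < 1 := hx }
  have hmem : ∀ x, x ∈ P ↔ ‖θ x‖ < 1 := fun _ => Iff.rfl
  have hPp : P.IsPrime := by
    refine ⟨?_, ?_⟩
    · rw [Ne, Ideal.eq_top_iff_one, hmem, map_one, norm_one]
      exact lt_irrefl _
    · intro x y hxy
      rw [hmem, map_mul, norm_mul] at hxy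
      by_contra hcon
      rw [not_or, hmem, hmem, not_lt, not_lt] at hcon
      have h1 : ‖θ x‖ = 1 := le_antisymm (hle x) hcon.1
      have h2 : ‖θ y‖ = 1 := le_antisymm (hle y) hcon.2
      rw [h1, h2, one_mul] at hxy
      exact lt_irrefl _ hxy
  have hpP : (p : NumberField.RingOfIntegers K) ∈ P := by
    rw [hmem, map_natCast]
    exact hpr.trans_lt hr1
  have hP0 : P ≠ ⊥ := by
    intro h
    rw [h, Ideal.mem_bot] at hpP
    exact hp.ne_zero (by exact_mod_cast hpP)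
  have hfin : Finite (NumberField.RingOfIntegers K ⧸ P) :=
    Ideal.finiteQuotientOfFreeOfNeBot P hP0
  have hmax : P.IsMaximal := hPp.isMaximal hP0
  let iF : Field (NumberField.RingOfIntegers K ⧸ P) := Ideal.Quotient.field P
  have iFt : Fintype (NumberField.RingOfIntegers K ⧸ P) := Fintype.ofFinite _
  have hchar : CharP (NumberField.RingOfIntegers K ⧸ P) p := by
    rw [CharP.charP_iff_prime_eq_zero hp, ← map_natCast (Ideal.Quotient.mk P),
      Ideal.Quotient.eq_zero_iff_mem]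
    exact hpP
  obtain ⟨f, -, hf⟩ := FiniteField.card (NumberField.RingOfIntegers K ⧸ P) p
  refine ⟨hle a, f, f.pos, fun t => ?_⟩
  have h1 : a ^ p ^ ((f : ℕ) * t) - a ∈ P := by
    rw [← Ideal.Quotient.eq_zero_iff_mem, map_sub, map_pow, pow_mul, ← hf,
      FiniteField.pow_card_pow, sub_self]
  rw [hmem, map_sub, map_pow] at h1
  rcases hr (a ^ p ^ ((f : ℕ) * t) - a) with h2 | h2
  · rw [map_sub, map_pow] at h2
    exact absurd h2 h1.ne
  · rw [map_sub, map_pow] at h2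
    exact h2

/-- BLOCK RA. The dichotomy for the norms passes from the integers of `K` to a subring that contains
all roots of unity of order prime to `p`. -/
theorem block_RA (hp : p.Prime) (hp1 : ‖(p : C)‖ < 1) {A : Type*} [CommRing A] (θ : A →+* C)
    {K : Type} [Field K] [NumberField K] (e : NumberField.RingOfIntegers K →+* A) (hr1 : r < 1)
    (hr : ∀ a, ‖θ (e a)‖ = 1 ∨ ‖θ (e a)‖ ≤ r) :
    ∃ R : Subring A, (∀ a, e a ∈ R) ∧ (∀ (M : ℕ) (x : A), ¬ p ∣ M → x ^ M = 1 → x ∈ R) ∧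
      ∀ a ∈ R, ‖θ a‖ = 1 ∨ ‖θ a‖ ≤ r := by
  have hpr : ‖(p : C)‖ ≤ r := by
    have h1 := hr (p : NumberField.RingOfIntegers K)
    rw [map_natCast, map_natCast] at h1
    exact h1.resolve_left hp1.ne
  refine ⟨(good p C hp hpr).comap θ, fun a => ?_, fun M x hM hx => ?_, fun a ha => ?_⟩
  · exact good_int hp hpr hr1 (θ.comp e) hr a
  · exact good_root hp hpr hM (by rw [← map_pow, hx, map_one])
  · exact good_dich hp hpr ha

end RA

end Pool.Agent.IT
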