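import Pool.Agent.Lib_helper62.EFF.RA

/-!
# The norm of the uniformizer of the cyclotomic fields
-/

set_option autoImplicit false

namespace Pool.Agent.IT

open Pool.Agent.RF Polynomial

theorem val_pow_le {C : Type*} [NormedField C] [IsUltrametricDist C] {x : C} (hx : ‖x‖ ≤ 1) (i : ℕ) :
    ‖x ^ i - 1‖ ≤ ‖x - 1‖ := by
  rw [← mul_geom_sum, norm_mul]
  have h3 : ‖∑ j ∈ Finset.range i, x ^ j‖ ≤ 1 := by
    apply IsUltrametricDist.norm_sum_le_of_forall_le_of_nonneg zero_le_one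
    intro j _
    rw [norm_pow]
    exact pow_le_one₀ (norm_nonneg _) hx
  calc ‖x - 1‖ * ‖∑ j ∈ Finset.range i, x ^ j‖ ≤ ‖x - 1‖ * 1 :=
        mul_le_mul_of_nonneg_left h3 (norm_nonneg _)
    _ = _ := mul_one _

/-- The norm of `1 - ζ` for a primitive root of unity of order `p ^ c`, `c > 0`. -/
theorem val_prim {C : Type*} [NormedField C] [IsUltrametricDist C] {p : ℕ} (hp : p.Prime) {c : ℕ}
    {z : C} (hz : IsPrimitiveRoot z (p ^ (c + 1))) :
    ‖z - 1‖ ^ (p ^ (c + 1)).totient = ‖(p : C)‖ := by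
  classical
  have hpos : 0 < p ^ (c + 1) := pow_pos hp.pos _
  have : NeZero (p ^ (c + 1)) := ⟨hpos.ne'⟩
  have hn : ∀ x : C, x ^ p ^ (c + 1) = 1 → ‖x‖ = 1 := by
    intro x hx
    have h1 : ‖x‖ ^ p ^ (c + 1) = 1 := by rw [← norm_pow, hx, norm_one]
    exact (pow_eq_one_iff_of_nonneg (norm_nonneg _) hpos.ne').mp h1
  have heq : ∀ x ∈ primitiveRoots (p ^ (c + 1)) C, ‖(1 : C) - x‖ = ‖z - 1‖ := by
    intro x hx
    rw [mem_primitiveRoots hpos] at hx
    rw [norm_sub_rev]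
    apply le_antisymm
    · obtain ⟨i, -, hi⟩ := hz.eq_pow_of_pow_eq_one hx.pow_eq_one
      rw [← hi]
      exact val_pow_le (hn z hz.pow_eq_one).le i
    · obtain ⟨i, -, hi⟩ := hx.eq_pow_of_pow_eq_one hz.pow_eq_one
      rw [← hi]
      exact val_pow_le (hn x hx.pow_eq_one).le i
  have h1 : eval 1 (cyclotomic (p ^ (c + 1)) C) = (p : C) := by
    have := Fact.mk hp
    exact eval_one_cyclotomic_prime_pow c
  rw [cyclotomic_eq_prod_X_sub_primitiveRoots hz, eval_prod] at h1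
  rw [← h1, norm_prod]
  have h2 : ∀ x ∈ primitiveRoots (p ^ (c + 1)) C, ‖eval 1 (X - Polynomial.C x)‖ = ‖z - 1‖ := by
    intro x hx
    rw [eval_sub, eval_X, eval_C]
    exact heq x hx
  rw [Finset.prod_congr rfl h2, Finset.prod_const, hz.card_primitiveRoots]

/-- BLOCK VAL. A ring that contains all roots of unity of order `M * p ^ c`, `p` prime to `M`, and
whose non-units have norm at most `|p| ^ (1 / φ(p ^ c))`. -/
theorem block_VAL {C : Type*} [NormedField C] [IsUltrametricDist C] {p : ℕ} (hp : p.Prime)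
    (hp1 : ‖(p : C)‖ < 1) {c : ℕ} {z : C} (hz : IsPrimitiveRoot z (p ^ c)) {A : Type*} [CommRing A]
    (θ : A →+* C) :
    ∃ r : ℝ, 0 ≤ r ∧ r < 1 ∧ ‖(p : C)‖ ≤ r ∧ r ^ (p ^ c).totient = ‖(p : C)‖ ∧
      ∃ R : Subring A, (∀ (M : ℕ) (x : A), ¬ p ∣ M → x ^ (M * p ^ c) = 1 → x ∈ R) ∧
        ∀ a ∈ R, ‖θ a‖ = 1 ∨ ‖θ a‖ ≤ r := by
  classical
  -- the number `r`
  obtain ⟨r, hr0, hr1, hpr, hrp, hrz⟩ : ∃ r : ℝ, 0 ≤ r ∧ r < 1 ∧ ‖(p : C)‖ ≤ r ∧
      r ^ (p ^ c).totient = ‖(p : C)‖ ∧ ∀ x : C, x ^ p ^ c = 1 → ‖x - 1‖ ≤ r := by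
    cases c with
    | zero =>
      refine ⟨‖(p : C)‖, norm_nonneg _, hp1, le_rfl, by rw [pow_zero, Nat.totient_one, pow_one],
        fun x hx => ?_⟩
      rw [pow_zero, pow_one] at hx
      rw [hx, sub_self, norm_zero]
      exact norm_nonneg _
    | succ c =>
      have hpos : 0 < p ^ (c + 1) := pow_pos hp.pos _
      have : NeZero (p ^ (c + 1)) := ⟨hpos.ne'⟩
      have hnz : ‖z‖ = 1 := by
        have h1 : ‖z‖ ^ p ^ (c + 1) = 1 := by rw [← norm_pow, hz.pow_eq_one, norm_one]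
        exact (pow_eq_one_iff_of_nonneg (norm_nonneg _) hpos.ne').mp h1
      have h1 := val_prim hp hz
      have htot : (p ^ (c + 1)).totient ≠ 0 := (Nat.totient_pos.mpr hpos).ne'
      have hlt : ‖z - 1‖ < 1 := by
        by_contra hcon
        rw [not_lt] at hcon
        have h2 := one_le_pow₀ hcon (n := (p ^ (c + 1)).totient)
        rw [h1] at h2
        exact absurd hp1 (not_lt.mpr h2)
      refine ⟨‖z - 1‖, norm_nonneg _, hlt, ?_, h1, fun x hx => ?_⟩
      · rw [← h1]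
        exact pow_le_of_le_one (norm_nonneg _) hlt.le htot
      · obtain ⟨i, -, hi⟩ := hz.eq_pow_of_pow_eq_one hx
        rw [← hi]
        exact val_pow_le hnz.le i
  refine ⟨r, hr0, hr1, hpr, hrp, (good p C hp hpr).comap θ, fun M x hM hx => ?_, fun a ha => ?_⟩
  · -- a root of unity of order `M * p ^ c` is in the ring
    change θ x ∈ good p C hp hpr
    have hy : θ x ^ (M * p ^ c) = 1 := by rw [← map_pow, hx, map_one]
    have hM0 : 0 < M := Nat.pos_of_ne_zero fun h => hM (by rw [h]; exact dvd_zero p)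
    have hpc : 0 < p ^ c := pow_pos hp.pos _
    have hn : ‖θ x‖ = 1 := by
      have h1 : ‖θ x‖ ^ (M * p ^ c) = 1 := by rw [← norm_pow, hy, norm_one]
      exact (pow_eq_one_iff_of_nonneg (norm_nonneg _) (Nat.mul_pos hM0 hpc).ne').mp h1
    refine ⟨hn.le, M.totient * (c + 1), Nat.mul_pos (Nat.totient_pos.mpr hM0) (Nat.succ_pos c),
      fun t => ?_⟩
    rcases Nat.eq_zero_or_pos t with ht | ht
    · rw [ht, mul_zero, pow_zero, pow_one, sub_self, norm_zero]
      exact hr0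
    set N : ℕ := p ^ (M.totient * (c + 1) * t) with hN
    -- `N ≡ 1` modulo `M`
    have hN1 : N ≡ 1 [MOD M] := by
      rw [hN, mul_assoc, pow_mul]
      have h2 := (Nat.ModEq.pow_totient (((Nat.Prime.coprime_iff_not_dvd hp).mpr hM))).pow
        ((c + 1) * t)
      rwa [one_pow] at h2
    have hNpos : 0 < N := pow_pos hp.pos _
    obtain ⟨u, hu⟩ := (Nat.modEq_iff_dvd' hNpos).mp hN1.symm
    have hNu : N = M * u + 1 := by omega
    have h3 : θ x ^ N - θ x = θ x * ((θ x ^ M) ^ u - 1) := by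
      rw [hNu, pow_succ, pow_mul]
      ring
    rw [h3, norm_mul, hn, one_mul]
    have h4 : (θ x ^ M) ^ p ^ c = 1 := by rw [← pow_mul]; exact hy
    refine (val_pow_le ?_ u).trans (hrz _ h4)
    rw [norm_pow, hn, one_pow]
  · exact good_dich hp hpr ha

end Pool.Agent.IT
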